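import Pool.Agent.H93.HQ.Targets

namespace Pool.Agent.H85.HQ.BR
open MeasureTheory Set Filter Topology Pool.Agent.H80.HS Pool.Agent.H93.HQ
open scoped ContDiff ENNReal

lemma lint_inv {v w : ℝ} (h0 : 0 < v) (hw : w = 2 * v) :
    ∫⁻ t in Ioc v w, ENNReal.ofReal t⁻¹ = ENNReal.ofReal (Real.log 2) := by
  subst hw
  have hle : v ≤ 2 * v := by linarith
  rw [← ofReal_integral_eq_lintegral_ofReal]
  · rw [← intervalIntegral.integral_of_le hle, integral_inv_of_pos h0 (by linarith),
      mul_div_assoc, div_self h0.ne', mul_one]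
  · have : IntegrableOn (fun t : ℝ => t⁻¹) (Icc v (2 * v)) := by
      apply ContinuousOn.integrableOn_Icc
      intro t ht
      have : t ≠ 0 := (h0.trans_le ht.1).ne'
      exact (continuousAt_inv₀ this).continuousWithinAt
    exact this.mono_set Ioc_subset_Icc_self
  · filter_upwards [self_mem_ae_restrict (measurableSet_Ioc : MeasurableSet (Ioc v (2 * v)))]
      with t ht
    exact inv_nonneg.2 (h0.trans ht.1).le

/-- the radial cut off -/
noncomputable def fr (n : ℕ) (r : ℝ) : ℝ≥0∞ :=
  (Ico (1 : ℝ) 2).indicator (fun r => ENNReal.ofReal (r ^ (-(2 * (n : ℝ) + 2)))) r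

lemma measurable_fr (n : ℕ) : Measurable (fr n) := by
  unfold fr
  refine Measurable.indicator ?_ measurableSet_Ico
  fun_prop

/-- `E1`. -/
noncomputable def E1 {n : ℕ} (p : ℝ) (x : H n) : ℝ≥0∞ :=
  ENNReal.ofReal (al x ^ p) * fr n (N x)

/-- `E2`. -/
noncomputable def E2 {n : ℕ} (x : H n) : ℝ≥0∞ := ENNReal.ofReal (N x ^ 2 / mz x)

lemma measurable_E1 {n : ℕ} (p : ℝ) : Measurable (E1 p : H n → ℝ≥0∞) := by
  have h1 := measurable_al (n := n)
  have h2 := (continuous_N (n := n)).measurable
  have h3 := (measurable_fr n).comp h2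
  unfold E1
  exact (h1.pow_const p).ennreal_ofReal.mul h3

lemma measurable_E2 {n : ℕ} : Measurable (E2 : H n → ℝ≥0∞) := by
  have h1 := (continuous_mz (n := n)).measurable
  have h2 := (continuous_N (n := n)).measurable
  unfold E2
  exact ((h2.pow_const 2).div h1).ennreal_ofReal

lemma int_fr (n : ℕ) :
    ∫⁻ r in Ioi (0 : ℝ), fr n r * ENNReal.ofReal (r ^ (2 * (n : ℝ) + 1)) =
      ENNReal.ofReal (Real.log 2) := by
  have h1 : ∫⁻ r in Ioi (0 : ℝ), fr n r * ENNReal.ofReal (r ^ (2 * (n : ℝ) + 1)) =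
      ∫⁻ r in Ioi (0 : ℝ), (Ico (1 : ℝ) 2).indicator (fun r => ENNReal.ofReal r⁻¹) r := by
    refine setLIntegral_congr_fun measurableSet_Ioi fun r (hr : 0 < r) => ?_
    unfold fr
    by_cases h : r ∈ Ico (1 : ℝ) 2
    · simp only [indicator_of_mem h]
      rw [← ENNReal.ofReal_mul (Real.rpow_nonneg hr.le _), ← Real.rpow_add hr]
      congr 1
      have : -(2 * (n : ℝ) + 2) + (2 * (n : ℝ) + 1) = -1 := by ring
      rw [this, Real.rpow_neg_one]
    · simp only [indicator_of_notMem h, zero_mul]
  rw [h1, lintegral_indicator measurableSet_Ico, Measure.restrict_restrict measurableSet_Ico]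
  have h2 : Ico (1 : ℝ) 2 ∩ Ioi 0 = Ico 1 2 := by
    ext r
    simp only [mem_inter_iff, mem_Ico, mem_Ioi]
    constructor
    · rintro ⟨h, -⟩; exact h
    · rintro h; exact ⟨h, by linarith [h.1]⟩
  rw [h2, ← lint_inv (v := 1) (w := 2) one_pos (by norm_num)]
  exact setLIntegral_congr Ico_ae_eq_Ioc

lemma meas_rot {n : ℕ} {Y : Type*} [MeasurableSpace Y] {f : Y → ℝ} {g : Y → H n}
    (hf : Measurable f) (hg : Measurable g) : Measurable (fun q => rot (f q) (g q)) := by
  have h2 : Measurable (fun q : ℝ × H n => rot q.1 q.2) := (continuous_rot' (n := n)).measurable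
  have h3 := h2.comp (hf.prodMk hg)
  exact h3

lemma meas_dil {n : ℕ} {Y : Type*} [MeasurableSpace Y] {f : Y → ℝ} {g : Y → H n}
    (hf : Measurable f) (hg : Measurable g) : Measurable (fun q => dil (f q) (g q)) := by
  have h2 : Measurable (fun q : ℝ × H n => dil q.1 q.2) := (continuous_dil' (n := n)).measurable
  have h3 := h2.comp (hf.prodMk hg)
  exact h3

lemma meas_ang {n : ℕ} :
    Measurable (fun q : H n × ℝ => q.1.2.2 / sq q.1 * Real.log q.2) := by
  have h2 : Measurable (fun q : H n × ℝ => sq q.1) :=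
    (continuous_sq (n := n)).measurable.comp measurable_fst
  have h3 : Measurable (fun q : H n × ℝ => q.1.2.2) :=
    measurable_snd.comp (measurable_snd.comp measurable_fst)
  exact (h3.div h2).mul (Real.measurable_log.comp measurable_snd)

/-- The measurability of the double integrand. -/
lemma meas1 {n : ℕ} {F : Type} [NormedAddCommGroup F] [NormedSpace ℝ F] {u : H n → F}
    (hu : ContDiff ℝ 1 u) (a b : ℝ) :
    Measurable (fun q : H n × ℝ =>
      bd u a b (dil q.2 (rot (q.1.2.2 / sq q.1 * Real.log q.2) q.1))) := by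
  have h1 := meas_rot (n := n) meas_ang measurable_fst
  have h2 := meas_dil measurable_snd h1
  have h3 := (measurable_bd hu a b).comp h2
  exact h3

/-- The measurability of the double integrand. -/
lemma meas1' {n : ℕ} {F : Type} [NormedAddCommGroup F] [NormedSpace ℝ F] {u : H n → F}
    (hu : ContDiff ℝ 1 u) (a b : ℝ) (x : H n) :
    Measurable (fun s : ℝ =>
      bd u a b (dil s (rot (x.2.2 / sq x * Real.log s) x))) := by
  have h0 : Measurable (fun s : ℝ => x.2.2 / sq x * Real.log s) :=
    measurable_const.mul Real.measurable_log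
  have h1 := meas_rot (n := n) h0 (measurable_const (a := x))
  have h2 := meas_dil measurable_id h1
  have h3 := (measurable_bd hu a b).comp h2
  exact h3

lemma meas2 {n : ℕ} (p : ℝ) {Y : Type*} [MeasurableSpace Y] {f : Y → ℝ} {g : Y → H n}
    (hf : Measurable f) (hg : Measurable g) :
    Measurable (fun q => ENNReal.ofReal ((f q)⁻¹ ^ (2 * n + 2)) *
      (E1 p (dil (f q)⁻¹ (g q)) * E2 (dil (f q)⁻¹ (g q)))) := by
  have h5 := meas_dil hf.inv hg
  have h6 := (measurable_E1 (n := n) p).comp h5
  have h7 := (measurable_E2 (n := n)).comp h5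
  have h8 := ((hf.inv.pow_const (2 * n + 2)).ennreal_ofReal).mul (h6.mul h7)
  exact h8

/-- The inner integral over `s`. -/
lemma inner_s {n : ℕ} (p : ℝ) (y : H n) (hy : 0 < mz y) :
    ∫⁻ s in Ioi (0 : ℝ), ENNReal.ofReal (s⁻¹ ^ (2 * n + 2)) *
      (E1 p (dil s⁻¹ y) * E2 (dil s⁻¹ y)) =
      ENNReal.ofReal (Real.log 2) * ENNReal.ofReal (ker p y) := by
  have hN := N_pos_of_mz hy
  have h1 : ∫⁻ s in Ioi (0 : ℝ), ENNReal.ofReal (s⁻¹ ^ (2 * n + 2)) *
      (E1 p (dil s⁻¹ y) * E2 (dil s⁻¹ y)) =
      ∫⁻ s in Ioi (0 : ℝ), (Ioc (N y / 2) (N y)).indicator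
        (fun s => ENNReal.ofReal s⁻¹ * ENNReal.ofReal (ker p y)) s := by
    refine setLIntegral_congr_fun measurableSet_Ioi fun s (hs : 0 < s) => ?_
    have hsi : 0 < s⁻¹ := inv_pos.2 hs
    unfold E1 E2 fr
    rw [al_dil hsi, N_dil hsi.le, mz_dil hsi.le]
    have hiff : s⁻¹ * N y ∈ Ico (1 : ℝ) 2 ↔ s ∈ Ioc (N y / 2) (N y) := by
      simp only [mem_Ico, mem_Ioc]
      have e1 : s⁻¹ * N y = N y / s := by rw [div_eq_mul_inv, mul_comm]
      rw [e1, le_div_iff₀ hs, div_lt_iff₀ hs, div_lt_iff₀ (by norm_num : (0 : ℝ) < 2), one_mul,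
        mul_comm s 2, and_comm]
    by_cases h : s ∈ Ioc (N y / 2) (N y)
    · rw [indicator_of_mem h, indicator_of_mem (hiff.2 h)]
      rw [← ENNReal.ofReal_mul (Real.rpow_nonneg (al_nonneg y) _),
        ← ENNReal.ofReal_mul (by have := al_nonneg y; positivity),
        ← ENNReal.ofReal_mul (by positivity), ← ENNReal.ofReal_mul (by positivity)]
      congr 1
      have e2 : al y ^ p = al y ^ (p - 1) * al y := by
        have hal : 0 < al y := div_pos hy hN
        rw [← Real.rpow_add_one hal.ne', sub_add_cancel]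
      have e3 : (s⁻¹ * N y) ^ (-(2 * (n : ℝ) + 2)) =
          (s⁻¹ ^ (2 * n + 2))⁻¹ * N y ^ (-(2 * (n : ℝ) + 2)) := by
        rw [Real.mul_rpow hsi.le hN.le, Real.rpow_neg hsi.le]
        congr 2
        rw [← Real.rpow_natCast]
        push_cast
        rfl
      have e4 : N y ^ (-(2 * (n : ℝ) + 1)) = N y ^ (-(2 * (n : ℝ) + 2)) * N y := by
        rw [← Real.rpow_add_one hN.ne']
        congr 1
        ring
      have e5 : al y = mz y / N y := rfl
      have e6 : s⁻¹ ^ (2 * n + 2) ≠ 0 := (pow_pos hsi _).ne'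
      unfold Pool.Agent.H93.HQ.ker
      rw [e2, e3, e4]
      have e7 : al y * (N y ^ 2 / mz y) = N y := by
        rw [e5]; field_simp
      have e8 : (s⁻¹ * N y) ^ 2 / (s⁻¹ * mz y) = s⁻¹ * (N y ^ 2 / mz y) := by
        field_simp
      rw [e8]
      calc s⁻¹ ^ (2 * n + 2) * (al y ^ (p - 1) * al y *
            ((s⁻¹ ^ (2 * n + 2))⁻¹ * N y ^ (-(2 * (n : ℝ) + 2))) *
              (s⁻¹ * (N y ^ 2 / mz y)))
          = (s⁻¹ ^ (2 * n + 2) * (s⁻¹ ^ (2 * n + 2))⁻¹) * s⁻¹ *
            (al y ^ (p - 1) * N y ^ (-(2 * (n : ℝ) + 2)) * (al y * (N y ^ 2 / mz y))) := by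
            ring
        _ = _ := by
            rw [mul_inv_cancel₀ e6, e7]
            ring
    · rw [indicator_of_notMem h, indicator_of_notMem (fun h' => h (hiff.1 h'))]
      simp
  rw [h1, lintegral_indicator measurableSet_Ioc, Measure.restrict_restrict measurableSet_Ioc]
  have h2 : Ioc (N y / 2) (N y) ∩ Ioi 0 = Ioc (N y / 2) (N y) := by
    refine inter_eq_left.2 fun s hs => ?_
    exact lt_trans (by positivity) hs.1
  rw [h2, lintegral_mul_const _ (by fun_prop), lint_inv (by positivity) (by ring)]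

theorem pf_BR (h1 : U_POL) (h2 : U_MZ) (h3 : U_AV) (h4 : U_DIL) (h5 : U_LINE) : U_BR := by
  intro n hn F _ _ u p a b hu hc hp ha hab hb
  have hlog : 0 < Real.log 2 := Real.log_pos (by norm_num)
  have hp0 : 0 ≤ p := by linarith
  have hmz := h2 n hn
  have hmE1 := measurable_E1 (n := n) p
  have hmE2 := measurable_E2 (n := n)
  have hmb := measurable_bd hu a b
  have hE1 : ∫⁻ x : H n, E1 p x = ENNReal.ofReal (sg n p) * ENNReal.ofReal (Real.log 2) := by
    have := h1 n hn p hp0 (fr n) (measurable_fr n)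
    rw [int_fr] at this
    exact this
  set c : H n → ℝ := fun x => x.2.2 / sq x with hcdef
  have hcm : Measurable c := by
    have h3 : Measurable (fun q : H n => q.2.2) :=
      (continuous_snd.comp continuous_snd).measurable
    exact h3.div (continuous_sq (n := n)).measurable
  -- the main chain
  have hchain : ENNReal.ofReal (sg n p) * ENNReal.ofReal (Real.log 2) * ENNReal.ofReal (b - a) ≤
      ENNReal.ofReal (Real.log 2) * ∫⁻ x, ENNReal.ofReal (ker p x) * bd u a b x := by
    calc ENNReal.ofReal (sg n p) * ENNReal.ofReal (Real.log 2) * ENNReal.ofReal (b - a)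
        = ∫⁻ x : H n, E1 p x * ENNReal.ofReal (b - a) := by
          rw [lintegral_mul_const _ hmE1, hE1]
      _ ≤ ∫⁻ x : H n, E1 p x * E2 x *
          ∫⁻ s in Ioi (0 : ℝ), bd u a b (dil s (rot (c x * Real.log s) x)) := by
          refine lintegral_mono_ae ?_
          filter_upwards [hmz] with x hx
          rw [mul_assoc]
          gcongr
          exact h5 n F u x a b hu hc hx ha hab hb
      _ = ∫⁻ x : H n, ∫⁻ s in Ioi (0 : ℝ), E1 p x * E2 x *
            bd u a b (dil s (rot (c x * Real.log s) x)) := by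
          refine lintegral_congr fun x => ?_
          have hm5 := meas1' hu a b x
          rw [lintegral_const_mul _ hm5]
      _ = ∫⁻ s in Ioi (0 : ℝ), ∫⁻ x : H n, E1 p x * E2 x *
            bd u a b (dil s (rot (c x * Real.log s) x)) := by
          refine lintegral_lintegral_swap (Measurable.aemeasurable ?_)
          have hm := meas1 hu a b
          have hm1 : Measurable (fun q : H n × ℝ => E1 p q.1 * E2 q.1) :=
            (hmE1.comp measurable_fst).mul (hmE2.comp measurable_fst)
          have hm2 := hm1.mul hm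
          exact hm2
      _ = ∫⁻ s in Ioi (0 : ℝ), ∫⁻ x : H n, E1 p x * E2 x * bd u a b (dil s x) := by
          refine lintegral_congr fun s => ?_
          have hm5 := hmb.comp (continuous_dil (n := n) s).measurable
          have hW : ∀ (θ : ℝ) (x : H n), E1 p (rot θ x) * E2 (rot θ x) = E1 p x * E2 x := by
            intro θ x
            simp only [E1, E2, al_rot, N_rot, mz_rot]
          have hcr : ∀ (θ : ℝ) (x : H n), c (rot θ x) * Real.log s = c x * Real.log s := by
            intro θ x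
            have : c (rot θ x) = c x := by
              change x.2.2 / sq (rot θ x) = x.2.2 / sq x
              rw [sq_rot]
            rw [this]
          have h7 := h3 n (fun x => E1 p x * E2 x) (fun x => bd u a b (dil s x))
            (fun x => c x * Real.log s) (hmE1.mul hmE2) hm5 (hcm.mul_const _) hW hcr
          exact h7
      _ = ∫⁻ s in Ioi (0 : ℝ), ∫⁻ y : H n, ENNReal.ofReal (s⁻¹ ^ (2 * n + 2)) *
            (E1 p (dil s⁻¹ y) * E2 (dil s⁻¹ y)) * bd u a b y := by
          refine setLIntegral_congr_fun measurableSet_Ioi fun s (hs : 0 < s) => ?_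
          have hm3 : Measurable (fun x : H n => E1 p x * E2 x * bd u a b (dil s x)) :=
            (hmE1.mul hmE2).mul (hmb.comp (continuous_dil s).measurable)
          have h7 := h4 n (fun x => E1 p x * E2 x * bd u a b (dil s x)) s⁻¹ hm3 (inv_pos.2 hs)
          have hm4 := hm3.comp (continuous_dil s⁻¹).measurable
          have hm8 : Measurable (fun y : H n => E1 p (dil s⁻¹ y) * E2 (dil s⁻¹ y) *
              bd u a b (dil s (dil s⁻¹ y))) := hm4
          rw [← h7, ← lintegral_const_mul _ hm8]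
          refine lintegral_congr fun y => ?_
          rw [dil_dil_inv hs.ne']
          simp only [mul_assoc]
      _ = ∫⁻ y : H n, ∫⁻ s in Ioi (0 : ℝ), ENNReal.ofReal (s⁻¹ ^ (2 * n + 2)) *
            (E1 p (dil s⁻¹ y) * E2 (dil s⁻¹ y)) * bd u a b y := by
          refine lintegral_lintegral_swap (Measurable.aemeasurable ?_)
          have hm5 := meas2 (n := n) p (measurable_fst (α := ℝ) (β := H n)) measurable_snd
          have hm6 : Measurable (fun q : ℝ × H n => bd u a b q.2) := hmb.comp measurable_snd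
          exact hm5.mul hm6
      _ = ∫⁻ y : H n, (∫⁻ s in Ioi (0 : ℝ), ENNReal.ofReal (s⁻¹ ^ (2 * n + 2)) *
            (E1 p (dil s⁻¹ y) * E2 (dil s⁻¹ y))) * bd u a b y := by
          refine lintegral_congr fun y => ?_
          have hm5 := meas2 (n := n) p (measurable_id (α := ℝ)) (measurable_const (a := y))
          have hm6 : Measurable (fun s : ℝ => ENNReal.ofReal (s⁻¹ ^ (2 * n + 2)) *
            (E1 p (dil s⁻¹ y) * E2 (dil s⁻¹ y))) := hm5
          rw [lintegral_mul_const _ hm6]
      _ = ∫⁻ y : H n, ENNReal.ofReal (Real.log 2) *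
            (ENNReal.ofReal (ker p y) * bd u a b y) := by
          refine lintegral_congr_ae ?_
          filter_upwards [hmz] with y hy
          rw [inner_s p y hy, mul_assoc]
      _ = _ := by
          refine lintegral_const_mul _ ?_
          exact (measurable_ker p).ennreal_ofReal.mul hmb
  have h6 : ENNReal.ofReal (Real.log 2) * (ENNReal.ofReal (sg n p * (b - a))) ≤
      ENNReal.ofReal (Real.log 2) * ∫⁻ x, ENNReal.ofReal (ker p x) * bd u a b x := by
    refine le_trans (le_of_eq ?_) hchain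
    rw [ENNReal.ofReal_mul (sg_pos hn hp0).le]
    ring
  exact (ENNReal.mul_le_mul_iff_right (ENNReal.ofReal_pos.2 hlog).ne'
    ENNReal.ofReal_ne_top).1 h6

end Pool.Agent.H85.HQ.BR
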