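import Pool.Agent.H93.HQ.Targets

namespace Pool.Agent.H85.HQ
open MeasureTheory Set Filter Topology Pool.Agent.H80.HS Pool.Agent.H93.HQ
open scoped ContDiff ENNReal

lemma DD_nonneg {n : ℕ} (hn : 1 ≤ n) {p B : ℝ} (hp : 1 < p) (hQ : p < 2 * n + 2)
    (hB : 0 < B) : 0 ≤ DD n p B := by
  have h1 := sg_pos hn (s := p) (by linarith)
  have h2 := sg_pos hn (s := p - 1) (by linarith)
  have h3 : 0 ≤ sg n p * (p - 1) / (2 * n + 2 - p) :=
    div_nonneg (mul_nonneg h1.le (by linarith)) (by linarith)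
  unfold DD
  have h4 := Real.rpow_nonneg h3 (1 - 1 / p)
  positivity

lemma inner_int {v : ℝ} (hv : 0 ≤ v) (c : ℝ≥0∞) :
    ∫⁻ t in Ioi (0 : ℝ), {t : ℝ | t / 2 < v ∧ v < t}.indicator (fun _ => c) t *
      ENNReal.ofReal t⁻¹ ≤ c * ENNReal.ofReal (Real.log 2) := by
  have hs : {t : ℝ | t / 2 < v ∧ v < t} = Ioo v (2 * v) := by
    ext t
    change (t / 2 < v ∧ v < t) ↔ (v < t ∧ t < 2 * v)
    constructor
    · rintro ⟨h1, h2⟩; exact ⟨h2, by linarith⟩
    · rintro ⟨h1, h2⟩; exact ⟨by linarith, h1⟩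
  rw [hs]
  have h1 : ∫⁻ t in Ioi (0 : ℝ), (Ioo v (2 * v)).indicator (fun _ => c) t *
      ENNReal.ofReal t⁻¹ ≤ ∫⁻ t in Ioo v (2 * v), c * ENNReal.ofReal t⁻¹ := by
    calc ∫⁻ t in Ioi (0 : ℝ), (Ioo v (2 * v)).indicator (fun _ => c) t *
          ENNReal.ofReal t⁻¹
        = ∫⁻ t in Ioi (0 : ℝ), (Ioo v (2 * v)).indicator
            (fun t => c * ENNReal.ofReal t⁻¹) t := by
          refine lintegral_congr fun t => ?_
          by_cases ht : t ∈ Ioo v (2 * v)
          · simp [ht]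
          · simp [ht]
      _ ≤ ∫⁻ t, (Ioo v (2 * v)).indicator (fun t => c * ENNReal.ofReal t⁻¹) t :=
          setLIntegral_le_lintegral _ _
      _ = ∫⁻ t in Ioo v (2 * v), c * ENNReal.ofReal t⁻¹ :=
          lintegral_indicator measurableSet_Ioo _
  refine h1.trans ?_
  rcases hv.eq_or_lt with h0 | h0
  · subst h0
    simp
  rw [lintegral_const_mul _ (by fun_prop)]
  gcongr
  have hle : v ≤ 2 * v := by linarith
  have h2 : ∫⁻ t in Ioo v (2 * v), ENNReal.ofReal t⁻¹ =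
      ENNReal.ofReal (∫ t in Ioo v (2 * v), t⁻¹) := by
    rw [ofReal_integral_eq_lintegral_ofReal]
    · have : IntegrableOn (fun t : ℝ => t⁻¹) (Icc v (2 * v)) := by
        apply ContinuousOn.integrableOn_Icc
        intro t ht
        have : t ≠ 0 := (h0.trans_le ht.1).ne'
        exact (continuousAt_inv₀ this).continuousWithinAt
      exact this.mono_set Ioo_subset_Icc_self
    · filter_upwards [self_mem_ae_restrict (measurableSet_Ioo : MeasurableSet (Ioo v (2 * v)))]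
        with t ht
      exact inv_nonneg.2 (h0.trans ht.1).le
  rw [h2, ← integral_Ioc_eq_integral_Ioo, ← intervalIntegral.integral_of_le hle,
    integral_inv_of_pos h0 (by linarith)]
  apply ENNReal.ofReal_le_ofReal
  rw [mul_div_assoc, div_self h0.ne', mul_one]

section
variable {n : ℕ} {F : Type*} [NormedAddCommGroup F] [NormedSpace ℝ F]

lemma bd_le_grad (u : H n → F) (a b : ℝ) (x : H n) :
    bd u a b x ≤ ENNReal.ofReal (grad u x) := by
  unfold bd
  exact indicator_le_self' (fun _ _ => zero_le) x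

lemma bd_eq (u : H n → F) (t : ℝ) (x : H n) :
    bd u (t / 2) t x = {t : ℝ | t / 2 < ‖u x‖ ∧ ‖u x‖ < t}.indicator
      (fun _ => ENNReal.ofReal (grad u x)) t := by
  unfold bd
  by_cases h : t / 2 < ‖u x‖ ∧ ‖u x‖ < t
  · rw [indicator_of_mem (show x ∈ {y : H n | t / 2 < ‖u y‖ ∧ ‖u y‖ < t} from h),
      indicator_of_mem (show t ∈ {t : ℝ | t / 2 < ‖u x‖ ∧ ‖u x‖ < t} from h)]
  · rw [indicator_of_notMem (show x ∉ {y : H n | t / 2 < ‖u y‖ ∧ ‖u y‖ < t} from h),
      indicator_of_notMem (show t ∉ {t : ℝ | t / 2 < ‖u x‖ ∧ ‖u x‖ < t} from h)]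

lemma measurable_bd2 {u : H n → F} (hu : ContDiff ℝ 1 u) :
    Measurable (fun q : ℝ × H n => bd u (q.1 / 2) q.1 q.2) := by
  have h1 : Continuous (fun q : ℝ × H n => ‖u q.2‖) := hu.continuous.norm.comp continuous_snd
  have h2 : Measurable (fun q : ℝ × H n => ENNReal.ofReal (grad u q.2)) :=
    ((continuous_grad hu).comp continuous_snd).measurable.ennreal_ofReal
  have h3 : MeasurableSet {q : ℝ × H n | q.1 / 2 < ‖u q.2‖ ∧ ‖u q.2‖ < q.1} :=
    (isOpen_lt (continuous_fst.div_const 2) h1).measurableSet.inter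
      (isOpen_lt h1 continuous_fst).measurableSet
  exact h2.indicator h3

/-- The double integral. -/
lemma double_int {u : H n → F} (hu : ContDiff ℝ 1 u) {p : ℝ} (hp : 0 < p) :
    ∫⁻ t in Ioi (0 : ℝ), (∫⁻ x, bd u (t / 2) t x ^ p) * ENNReal.ofReal t⁻¹ ≤
      (∫⁻ x, ENNReal.ofReal (grad u x) ^ p) * ENNReal.ofReal (Real.log 2) := by
  have hm : Measurable (fun q : ℝ × H n => bd u (q.1 / 2) q.1 q.2 ^ p *
      ENNReal.ofReal q.1⁻¹) := by
    have := measurable_bd2 hu
    fun_prop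
  have hG : Measurable (fun x => ENNReal.ofReal (grad u x) ^ p) := by
    have := (continuous_grad hu).measurable
    fun_prop
  calc ∫⁻ t in Ioi (0 : ℝ), (∫⁻ x, bd u (t / 2) t x ^ p) * ENNReal.ofReal t⁻¹
      = ∫⁻ t in Ioi (0 : ℝ), ∫⁻ x, bd u (t / 2) t x ^ p * ENNReal.ofReal t⁻¹ := by
        refine lintegral_congr fun t => ?_
        rw [lintegral_mul_const]
        have := measurable_bd hu (t / 2) t
        fun_prop
    _ = ∫⁻ x, ∫⁻ t in Ioi (0 : ℝ), bd u (t / 2) t x ^ p * ENNReal.ofReal t⁻¹ :=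
        lintegral_lintegral_swap hm.aemeasurable
    _ ≤ ∫⁻ x, ENNReal.ofReal (grad u x) ^ p * ENNReal.ofReal (Real.log 2) := by
        refine lintegral_mono fun x => ?_
        refine le_trans (le_of_eq ?_) (inner_int (norm_nonneg (u x))
          (ENNReal.ofReal (grad u x) ^ p))
        refine lintegral_congr fun t => ?_
        rw [bd_eq]
        by_cases h : t ∈ {t : ℝ | t / 2 < ‖u x‖ ∧ ‖u x‖ < t}
        · rw [indicator_of_mem h, indicator_of_mem h]
        · rw [indicator_of_notMem h, indicator_of_notMem h, ENNReal.zero_rpow_of_pos hp]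
    _ = _ := lintegral_mul_const _ hG

end

/-- The inequality in `ℝ≥0∞`. -/
lemma st_ennreal (h : U_CAP) (n : ℕ) (hn : 1 ≤ n) (F : Type) [NormedAddCommGroup F]
    [NormedSpace ℝ F] (p B q : ℝ) (hp : 1 < p) (hQ : p < 2 * n + 2) (hB : 0 < B)
    (u : H n → F) (hu : ContDiff ℝ 1 u) (hc : HasCompactSupport u)
    (hq : q = (2 * n + 2) * p / (2 * n + 2 - p)) :
    ∫⁻ x, ENNReal.ofReal (‖u x‖ ^ q) ≤ ENNReal.ofReal (q * 2 ^ p * Real.log 2) *
      (ENNReal.ofReal (DD n p B) ^ q *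
        (∫⁻ x, ENNReal.ofReal (grad u x) ^ p) ^ (q / p)) := by
  have hQp : (0 : ℝ) < 2 * n + 2 - p := by linarith
  have hp0 : 0 < p := by linarith
  have hQ0 : (0 : ℝ) < 2 * n + 2 := by positivity
  have hq0 : 0 < q := by rw [hq]; positivity
  have hqp : 0 < q - p := by
    have : q - p = p ^ 2 / (2 * n + 2 - p) := by
      rw [hq, eq_div_iff hQp.ne', sub_mul, div_mul_cancel₀ _ hQp.ne']; ring
    rw [this]; positivity
  set e : ℝ := (2 * (n : ℝ) + 2 - p) / ((2 * n + 2) * p) with he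
  have heq : e * q = 1 := by
    rw [he, hq, div_mul_div_comm, mul_comm (2 * (n : ℝ) + 2 - p), div_self (by positivity)]
  have he0 : 0 < e := by rw [he]; positivity
  set D := ENNReal.ofReal (DD n p B) with hD
  set G := ∫⁻ x, ENNReal.ofReal (grad u x) ^ p with hG
  set m : ℝ → ℝ≥0∞ := fun t => volume {x : H n | t ≤ ‖u x‖} with hm
  -- first use
  have hA : ∀ t : ℝ, 0 < t → ENNReal.ofReal t * m t ^ e ≤ D * G ^ (1 / p) := by
    intro t ht
    have h1 := h n hn F u p B 0 t hu hc hp hQ hB le_rfl ht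
    rw [sub_zero] at h1
    refine h1.trans ?_
    have h2 : ∫⁻ x, bd u 0 t x ^ p ≤ G :=
      lintegral_mono fun x => ENNReal.rpow_le_rpow (bd_le_grad u 0 t x) hp0.le
    gcongr
  have hB' : ∀ t : ℝ, 0 < t → (ENNReal.ofReal t * m t ^ e) ^ p ≤
      ENNReal.ofReal (2 ^ p) * D ^ p * ∫⁻ x, bd u (t / 2) t x ^ p := by
    intro t ht
    have h1 := h n hn F u p B (t / 2) t hu hc hp hQ hB (by positivity) (by linarith)
    have h2 : ENNReal.ofReal t * m t ^ e ≤ ENNReal.ofReal 2 *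
        (D * (∫⁻ x, bd u (t / 2) t x ^ p) ^ (1 / p)) := by
      have h3 : ENNReal.ofReal t = ENNReal.ofReal 2 * ENNReal.ofReal (t - t / 2) := by
        rw [← ENNReal.ofReal_mul (by norm_num)]
        congr 1
        ring
      rw [h3, mul_assoc]
      gcongr
    calc (ENNReal.ofReal t * m t ^ e) ^ p ≤ (ENNReal.ofReal 2 *
          (D * (∫⁻ x, bd u (t / 2) t x ^ p) ^ (1 / p))) ^ p := by gcongr
      _ = ENNReal.ofReal (2 ^ p) * D ^ p * ∫⁻ x, bd u (t / 2) t x ^ p := by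
          rw [ENNReal.mul_rpow_of_nonneg _ _ hp0.le, ENNReal.mul_rpow_of_nonneg _ _ hp0.le,
            ← ENNReal.rpow_mul, one_div_mul_cancel hp0.ne', ENNReal.rpow_one,
            ENNReal.ofReal_rpow_of_pos (by norm_num), mul_assoc]
  have hC : ∀ t : ℝ, 0 < t → m t * ENNReal.ofReal (t ^ (q - 1)) ≤
      (D * G ^ (1 / p)) ^ (q - p) * (ENNReal.ofReal (2 ^ p) * D ^ p) *
        ((∫⁻ x, bd u (t / 2) t x ^ p) * ENNReal.ofReal t⁻¹) := by
    intro t ht
    have h1 : m t * ENNReal.ofReal (t ^ (q - 1)) =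
        (ENNReal.ofReal t * m t ^ e) ^ q * ENNReal.ofReal t⁻¹ := by
      rw [ENNReal.mul_rpow_of_nonneg _ _ hq0.le, ← ENNReal.rpow_mul, heq, ENNReal.rpow_one,
        ENNReal.ofReal_rpow_of_pos ht, mul_comm (ENNReal.ofReal (t ^ q)), mul_assoc,
        ← ENNReal.ofReal_mul (by positivity)]
      congr 2
      rw [Real.rpow_sub_one ht.ne', div_eq_mul_inv]
    have h2 : (ENNReal.ofReal t * m t ^ e) ^ q =
        (ENNReal.ofReal t * m t ^ e) ^ (q - p) * (ENNReal.ofReal t * m t ^ e) ^ p := by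
      rw [← ENNReal.rpow_add_of_nonneg _ _ hqp.le hp0.le, sub_add_cancel]
    rw [h1, h2]
    calc (ENNReal.ofReal t * m t ^ e) ^ (q - p) * (ENNReal.ofReal t * m t ^ e) ^ p *
          ENNReal.ofReal t⁻¹
        ≤ (D * G ^ (1 / p)) ^ (q - p) *
          (ENNReal.ofReal (2 ^ p) * D ^ p * ∫⁻ x, bd u (t / 2) t x ^ p) *
          ENNReal.ofReal t⁻¹ :=
          mul_le_mul_left (mul_le_mul' (ENNReal.rpow_le_rpow (hA t ht) hqp.le) (hB' t ht)) _
      _ = _ := by ring
  have hlay : ∫⁻ x, ENNReal.ofReal (‖u x‖ ^ q) = ENNReal.ofReal q *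
      ∫⁻ t in Ioi (0 : ℝ), m t * ENNReal.ofReal (t ^ (q - 1)) :=
    lintegral_rpow_eq_lintegral_meas_le_mul volume (Eventually.of_forall fun x => norm_nonneg _)
      hu.continuous.norm.measurable.aemeasurable hq0
  have hI := double_int (u := u) hu hp0
  have hfin : ∫⁻ t in Ioi (0 : ℝ), m t * ENNReal.ofReal (t ^ (q - 1)) ≤
      (D * G ^ (1 / p)) ^ (q - p) * (ENNReal.ofReal (2 ^ p) * D ^ p) *
        (G * ENNReal.ofReal (Real.log 2)) := by
    calc ∫⁻ t in Ioi (0 : ℝ), m t * ENNReal.ofReal (t ^ (q - 1))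
        ≤ ∫⁻ t in Ioi (0 : ℝ), (D * G ^ (1 / p)) ^ (q - p) * (ENNReal.ofReal (2 ^ p) * D ^ p) *
            ((∫⁻ x, bd u (t / 2) t x ^ p) * ENNReal.ofReal t⁻¹) := by
          refine setLIntegral_mono' measurableSet_Ioi fun t ht => hC t ht
      _ = (D * G ^ (1 / p)) ^ (q - p) * (ENNReal.ofReal (2 ^ p) * D ^ p) *
          ∫⁻ t in Ioi (0 : ℝ), (∫⁻ x, bd u (t / 2) t x ^ p) * ENNReal.ofReal t⁻¹ := by
          refine lintegral_const_mul _ ?_
          have h1 : Measurable (fun t : ℝ => ∫⁻ x, bd u (t / 2) t x ^ p) := by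
            have h2 : Measurable (fun q : ℝ × H n => bd u (q.1 / 2) q.1 q.2 ^ p) := by
              have := measurable_bd2 hu
              fun_prop
            exact h2.lintegral_prod_right'
          fun_prop
      _ ≤ _ := by gcongr
  have hpow : (D * G ^ (1 / p)) ^ (q - p) * D ^ p * G = D ^ q * G ^ (q / p) := by
    have e1 : D ^ q = D ^ (q - p) * D ^ p := by
      rw [← ENNReal.rpow_add_of_nonneg _ _ hqp.le hp0.le, sub_add_cancel]
    have e2 : G ^ (q / p) = (G ^ (1 / p)) ^ (q - p) * G := by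
      have e3 : q / p = 1 / p * (q - p) + 1 := by field_simp; ring
      rw [e3, ENNReal.rpow_add_of_nonneg _ _ (by positivity) zero_le_one, ENNReal.rpow_mul,
        ENNReal.rpow_one]
    rw [ENNReal.mul_rpow_of_nonneg _ _ hqp.le, e1, e2]
    ring
  have hlog : 0 ≤ Real.log 2 := Real.log_nonneg (by norm_num)
  rw [hlay]
  calc ENNReal.ofReal q * ∫⁻ t in Ioi (0 : ℝ), m t * ENNReal.ofReal (t ^ (q - 1))
      ≤ ENNReal.ofReal q * ((D * G ^ (1 / p)) ^ (q - p) * (ENNReal.ofReal (2 ^ p) * D ^ p) *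
        (G * ENNReal.ofReal (Real.log 2))) := by gcongr
    _ = ENNReal.ofReal q * ENNReal.ofReal (2 ^ p) * ENNReal.ofReal (Real.log 2) *
        ((D * G ^ (1 / p)) ^ (q - p) * D ^ p * G) := by ring
    _ = _ := by
        rw [hpow, ← ENNReal.ofReal_mul hq0.le, ← ENNReal.ofReal_mul (by positivity)]

theorem pf_ST (h : U_CAP) : U_ST := by
  intro n hn F _ _ p B hp hQ hB u hu' hc
  have hu : ContDiff ℝ 1 u := hu'.of_le (by exact_mod_cast le_top)
  have hQp : (0 : ℝ) < 2 * n + 2 - p := by linarith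
  have hp0 : 0 < p := by linarith
  have hQ0 : (0 : ℝ) < 2 * n + 2 := by positivity
  set q : ℝ := (2 * n + 2) * p / (2 * n + 2 - p) with hq
  have hq0 : 0 < q := by rw [hq]; positivity
  set r : ℝ := (2 * (n : ℝ) + 2 - p) / (2 * n + 2) with hr
  have hr0 : 0 < r := by rw [hr]; positivity
  have hqr : q * r = p := by
    rw [hq, hr, div_mul_div_comm, mul_comm (2 * (n : ℝ) + 2 - p), mul_assoc,
      mul_comm p, ← mul_assoc, mul_comm ((2 * (n : ℝ) + 2) * (2 * n + 2 - p)),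
      mul_div_assoc, div_self (by positivity), mul_one]
  have hDD := DD_nonneg hn hp hQ hB
  have hlog : 0 ≤ Real.log 2 := Real.log_nonneg (by norm_num)
  have hmain := st_ennreal h n hn F p B q hp hQ hB u hu hc hq
  set G := ∫⁻ x, ENNReal.ofReal (grad u x) ^ p with hG
  have hGeq : G = ∫⁻ x, ENNReal.ofReal (grad u x ^ p) := by
    rw [hG]
    exact lintegral_congr fun x => ENNReal.ofReal_rpow_of_nonneg (grad_nonneg u x) hp0.le
  have hcont : Continuous (fun x => grad u x ^ p) :=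
    (continuous_grad hu).rpow_const fun _ => Or.inr hp0.le
  have hcs : HasCompactSupport (fun x => grad u x ^ p) :=
    (hasCompactSupport_grad hc).comp_left (g := fun y : ℝ => y ^ p) (Real.zero_rpow hp0.ne')
  have hint : Integrable (fun x => grad u x ^ p) := hcont.integrable_of_hasCompactSupport hcs
  have hGfin : G ≠ ⊤ := by
    rw [hGeq]
    exact hint.lintegral_lt_top.ne
  have hGr : ∫ z, grad u z ^ p = G.toReal := by
    rw [hGeq, integral_eq_lintegral_of_nonneg_ae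
      (Eventually.of_forall fun x => Real.rpow_nonneg (grad_nonneg u x) _)
      hcont.aestronglyMeasurable]
  have hcont2 : Continuous (fun x => ‖u x‖ ^ q) :=
    hu.continuous.norm.rpow_const fun _ => Or.inr hq0.le
  have hLr : ∫ z, ‖u z‖ ^ q = (∫⁻ x, ENNReal.ofReal (‖u x‖ ^ q)).toReal :=
    integral_eq_lintegral_of_nonneg_ae
      (Eventually.of_forall fun x => Real.rpow_nonneg (norm_nonneg _) _)
      hcont2.aestronglyMeasurable
  have hpow : (∫⁻ x, ENNReal.ofReal (‖u x‖ ^ q)) ^ r ≤ ENNReal.ofReal (UB n p B) * G := by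
    calc (∫⁻ x, ENNReal.ofReal (‖u x‖ ^ q)) ^ r
        ≤ (ENNReal.ofReal (q * 2 ^ p * Real.log 2) *
          (ENNReal.ofReal (DD n p B) ^ q * G ^ (q / p))) ^ r := by gcongr
      _ = ENNReal.ofReal (UB n p B) * G := by
          rw [ENNReal.mul_rpow_of_nonneg _ _ hr0.le, ENNReal.mul_rpow_of_nonneg _ _ hr0.le,
            ← ENNReal.rpow_mul, ← ENNReal.rpow_mul, hqr]
          have e1 : q / p * r = 1 := by
            rw [div_mul_eq_mul_div, hqr, div_self hp0.ne']
          rw [e1, ENNReal.rpow_one, ENNReal.ofReal_rpow_of_nonneg hDD hp0.le,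
            ENNReal.ofReal_rpow_of_nonneg (by positivity) hr0.le, ← mul_assoc,
            ← ENNReal.ofReal_mul (by positivity)]
          rfl
  have hUB : 0 ≤ UB n p B := by
    unfold UB
    have := Real.rpow_nonneg hDD p
    positivity
  rw [hLr, hGr, ENNReal.toReal_rpow]
  calc ((∫⁻ x, ENNReal.ofReal (‖u x‖ ^ q)) ^ r).toReal
      ≤ (ENNReal.ofReal (UB n p B) * G).toReal :=
        ENNReal.toReal_mono (ENNReal.mul_ne_top ENNReal.ofReal_ne_top hGfin) hpow
    _ = UB n p B * G.toReal := by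
        rw [ENNReal.toReal_mul, ENNReal.toReal_ofReal hUB]

end Pool.Agent.H85.HQ
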